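import Pool.Agent.Helper2.E8C.Stm

/-!
# Part CONST: the invariant of degree 8 has constant sign on the shells 1, 2, 3, 5, 6
-/

set_option autoImplicit false

namespace Pool.Agent.Helper95.E8C

open Pool.Agent.Q10.E8 Pool.Agent.Helper2.E8C

theorem pr_sq_le {m : ℕ} {v r : Fin 8 → ℤ} (hv : InShell m v) (hr : r ∈ shell 1) :
    pr v r ^ 2 ≤ 4 * (m : ℤ) := by
  have hr' := (mem_shell 1 r).1 hr
  have h1 := pr_spec v r hv.1 hr'.1
  have h2 := Finset.sum_mul_sq_le_sq_mul_sq Finset.univ v r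
  rw [← h1, hv.2, hr'.2] at h2
  push_cast at h2
  nlinarith

theorem neg_mem {r : Fin 8 → ℤ} (hr : r ∈ shell 1) : -r ∈ shell 1 := by
  rw [mem_shell] at hr ⊢
  obtain ⟨⟨h1, h2⟩, h3⟩ := hr
  refine ⟨⟨fun i j => ?_, ?_⟩, ?_⟩
  · have := h1 i j
    simp only [Pi.neg_apply]
    omega
  · simp only [Pi.neg_apply, Finset.sum_neg_distrib]
    omega
  · simpa using h3

theorem pr_neg {m : ℕ} {v r : Fin 8 → ℤ} (hv : InShell m v) (hr : r ∈ shell 1) :
    pr v (-r) = - pr v r := by
  have hr' := (mem_shell 1 r).1 hr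
  have hn := (mem_shell 1 (-r)).1 (neg_mem hr)
  have h1 := pr_spec v r hv.1 hr'.1
  have h2 := pr_spec v (-r) hv.1 hn.1
  have h3 : ∑ i, v i * (-r) i = - ∑ i, v i * r i := by
    simp [Finset.sum_neg_distrib]
  omega

/-- the number of the roots with inner product `4` -/
noncomputable def P (v : Fin 8 → ℤ) : ℤ := ∑ r ∈ shell 1, if pr v r = 4 then 1 else 0

theorem P_neg {m : ℕ} {v : Fin 8 → ℤ} (hv : InShell m v) :
    ∑ r ∈ shell 1, (if pr v r = -4 then 1 else 0 : ℤ) = P v := by
  unfold P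
  refine Finset.sum_bij' (fun r _ => -r) (fun r _ => -r) (fun r hr => neg_mem hr)
    (fun r hr => neg_mem hr) (fun r _ => neg_neg r) (fun r _ => neg_neg r) (fun r hr => ?_)
  have h := pr_neg hv hr
  simp only [h]
  by_cases h4 : pr v r = -4
  · simp [h4]
  · have : ¬ (- pr v r = 4) := by omega
    simp [h4, this]

theorem abs_cases (a : ℤ) (h : a ^ 2 ≤ 24) :
    a = -4 ∨ a = -3 ∨ a = -2 ∨ a = -1 ∨ a = 0 ∨ a = 1 ∨ a = 2 ∨ a = 3 ∨ a = 4 := by
  have h1 : a ≤ 4 := by nlinarith
  have h2 : -4 ≤ a := by nlinarith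
  omega

theorem main_id {m : ℕ} (hm : m ≤ 6) {v : Fin 8 → ℤ} (hv : InShell m v) (h : S_RM) :
    rootSum v = 3360 * (m : ℤ) ^ 3 - 7056 * (m : ℤ) ^ 2 + 4320 * (m : ℤ) + 40320 * P v := by
  obtain ⟨h2, h4, h6⟩ := h m v hv
  have key : ∀ r ∈ shell 1, pr v r ^ 8 = 14 * pr v r ^ 6 - 49 * pr v r ^ 4 + 36 * pr v r ^ 2
      + 20160 * (if pr v r = 4 then 1 else 0) + 20160 * (if pr v r = -4 then 1 else 0) := by
    intro r hr
    have hb := pr_sq_le hv hr
    have hb' : pr v r ^ 2 ≤ 24 := by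
      have : (m : ℤ) ≤ 6 := by exact_mod_cast hm
      linarith
    rcases abs_cases _ hb' with e | e | e | e | e | e | e | e | e <;> rw [e] <;> norm_num
  unfold rootSum
  rw [Finset.sum_congr rfl key]
  simp only [Finset.sum_add_distrib, Finset.sum_sub_distrib, ← Finset.mul_sum]
  rw [h2, h4, h6, P_neg hv]
  show _ + 20160 * P v + _ = _
  ring

theorem P_nonneg (v : Fin 8 → ℤ) : 0 ≤ P v := by
  unfold P
  exact Finset.sum_nonneg fun r _ => by split_ifs <;> norm_num

theorem P_zero {m : ℕ} (hm : m ≤ 3) {v : Fin 8 → ℤ} (hv : InShell m v) : P v = 0 := by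
  unfold P
  refine Finset.sum_eq_zero fun r hr => ?_
  have hb := pr_sq_le hv hr
  have : (m : ℤ) ≤ 3 := by exact_mod_cast hm
  have h4 : pr v r ≠ 4 := by
    intro h
    rw [h] at hb
    linarith
  simp [h4]

theorem P_five {v : Fin 8 → ℤ} (hv : InShell 5 v) (h : S_RM) : 1 ≤ P v := by
  obtain ⟨h2, h4, h6⟩ := h 5 v hv
  have key : ∀ r ∈ shell 1, pr v r ^ 6 - 14 * pr v r ^ 4 + 49 * pr v r ^ 2 - 36 ≤
      1260 * (if pr v r = 4 then 1 else 0) + 1260 * (if pr v r = -4 then 1 else 0) := by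
    intro r hr
    have hb := pr_sq_le hv hr
    have hb' : pr v r ^ 2 ≤ 24 := by push_cast at hb; linarith
    rcases abs_cases _ hb' with e | e | e | e | e | e | e | e | e <;> rw [e] <;> norm_num
  have hs := Finset.sum_le_sum key
  simp only [Finset.sum_add_distrib, Finset.sum_sub_distrib, ← Finset.mul_sum] at hs
  rw [h2, h4, h6, P_neg hv] at hs
  rw [Finset.sum_const, card_roots] at hs
  have hP : ∑ r ∈ shell 1, (if pr v r = 4 then 1 else 0 : ℤ) = P v := rfl
  rw [hP] at hs
  norm_num at hs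
  omega

theorem six_le {v : Fin 8 → ℤ} (hv : InShell 6 v) (h : S_RM) : rootSum v ≤ 653184 := by
  obtain ⟨h2, h4, h6⟩ := h 6 v hv
  have key : ∀ r ∈ shell 1, pr v r ^ 8 ≤
      29 * pr v r ^ 6 - 244 * pr v r ^ 4 + 576 * pr v r ^ 2 := by
    intro r hr
    have hb := pr_sq_le hv hr
    have hb' : pr v r ^ 2 ≤ 24 := by push_cast at hb; linarith
    rcases abs_cases _ hb' with e | e | e | e | e | e | e | e | e <;> rw [e] <;> norm_num
  have hs := Finset.sum_le_sum key
  simp only [Finset.sum_add_distrib, Finset.sum_sub_distrib, ← Finset.mul_sum] at hs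
  rw [h2, h4, h6] at hs
  unfold rootSum
  norm_num at hs
  exact hs

theorem t_CONST (h : S_RM) : S_CONST := by
  constructor
  · rintro m v (rfl | rfl | rfl) hv
    · have := main_id (by norm_num) hv h
      rw [P_zero (by norm_num) hv] at this
      norm_num at this ⊢
      linarith
    · have := main_id (by norm_num) hv h
      rw [P_zero (by norm_num) hv] at this
      norm_num at this ⊢
      linarith
    · have := main_id (by norm_num) hv h
      have hP := P_five hv h
      norm_num at this ⊢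
      linarith
  · rintro m v (rfl | rfl) hv
    · have := main_id (by norm_num) hv h
      rw [P_zero (by norm_num) hv] at this
      norm_num at this ⊢
      linarith
    · have := main_id (by norm_num) hv h
      have hP := six_le hv h
      norm_num at this ⊢
      omega

end Pool.Agent.Helper95.E8C
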